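import Mathlib
import Pool.Agent.helper18.HG.Spec

/-! Row `hg:SER` (MP_33a656_nt). -/

set_option autoImplicit false

namespace Pool.Agent.helper18.HG

open Finset

/-- Discrete intermediate value theorem. -/
lemma SER_ivt (r : ℕ → ℕ) (h0 : r 0 = 0) (hs : ∀ L, r (L + 1) ≤ r L + 1) (m : ℕ) :
    ∀ L, m + 1 ≤ r L → ∃ L', 1 ≤ L' ∧ r L' = m + 1 := by
  intro L
  induction L with
  | zero => intro h; omega
  | succ L ih =>
    intro h
    by_cases h1 : m + 1 ≤ r L
    · exact ih h1
    · exact ⟨L + 1, by omega, by have := hs L; omega⟩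

theorem SER (hRKB : RKB_stmt) (hUNB : UNB_stmt) : SER_stmt := by
  intro k s hk hs
  obtain ⟨-, -, hstep, hlt, -⟩ := hRKB k (by omega)
  have h0 : rk k 0 = 0 := hlt 0 (by omega)
  have hmono : Monotone (rk k) := monotone_nat_of_le_succ fun L => (hstep L).1
  have hw : ∀ n, w k n = 0 ∨ w k n = 1 := by
    intro n
    have := hstep n
    unfold w
    omega
  refine ⟨hw, ?_⟩
  have hne : ∀ m : ℕ, {L | 1 ≤ L ∧ rk k L = m + 1}.Nonempty := by
    intro m
    obtain ⟨L, h1, h2⟩ := SER_ivt (rk k) h0 (fun L => (hstep L).2) m (2 ^ (m + 1)) (hUNB k (m + 1) hk)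
    exact ⟨L, h1, h2⟩
  have hmem : ∀ m : ℕ, 1 ≤ uu k (m + 1) ∧ rk k (uu k (m + 1)) = m + 1 := fun m => Nat.sInf_mem (hne m)
  have hmin : ∀ m L : ℕ, 1 ≤ L → rk k L = m + 1 → uu k (m + 1) ≤ L := fun m L h1 h2 => Nat.sInf_le ⟨h1, h2⟩
  -- the map
  have hwg : ∀ m : ℕ, w k (uu k (m + 1) - 1) = 1 := by
    intro m
    obtain ⟨h1, h2⟩ := hmem m
    have h3 : uu k (m + 1) - 1 + 1 = uu k (m + 1) := by omega
    have h4 := hstep (uu k (m + 1) - 1)
    rw [h3, h2] at h4
    have h5 : rk k (uu k (m + 1) - 1) ≠ m + 1 := by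
      intro h
      rcases Nat.eq_zero_or_pos (uu k (m + 1) - 1) with h6 | h6
      · rw [h6, h0] at h; omega
      · have := hmin m _ h6 h; omega
    unfold w
    rw [h3, h2]
    omega
  have hinj : Function.Injective (fun m : ℕ => uu k (m + 1) - 1) := by
    intro m m' h
    simp only at h
    obtain ⟨h1, h2⟩ := hmem m
    obtain ⟨h1', h2'⟩ := hmem m'
    have h3 : uu k (m + 1) = uu k (m' + 1) := by omega
    rw [h3] at h2
    omega
  have hsupp : Function.support (fun n : ℕ => (w k n : ℝ) * ((s : ℝ) ^ (n + 1))⁻¹) ⊆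
      Set.range (fun m : ℕ => uu k (m + 1) - 1) := by
    intro n hn
    have hn1 : w k n = 1 := by
      rcases hw n with h | h
      · exfalso; apply hn; simp [h]
      · exact h
    refine ⟨rk k n, ?_⟩
    have hr : rk k (n + 1) = rk k n + 1 := by
      unfold w at hn1
      omega
    have h1 : uu k (rk k n + 1) ≤ n + 1 := hmin _ _ (by omega) hr
    have h2 : n < uu k (rk k n + 1) := by
      by_contra h
      push Not at h
      have := hmono h
      rw [(hmem (rk k n)).2] at this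
      omega
    show uu k (rk k n + 1) - 1 = n
    omega
  unfold dens
  congr 1
  rw [← hinj.tsum_eq hsupp]
  refine tsum_congr fun m => ?_
  rw [hwg m, Nat.sub_add_cancel (hmem m).1]
  simp

end Pool.Agent.helper18.HG
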